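import Pool.Agent.helper12.DD.Spec

/-!
# IND: block induction in products
-/

set_option autoImplicit false

open Pool.Agent.helper49.Blk

namespace Pool.Agent.DD

theorem IND_mul (M : Ideal (integralClosure ℤ ℂ)) {u₁ u₂ v₁ v₂ : ℂ} (hu₂ : IsIntegral ℤ u₂)
    (hv₁ : IsIntegral ℤ v₁) (h₁ : ∃ a ∈ M, u₁ - v₁ = ((a : integralClosure ℤ ℂ) : ℂ))
    (h₂ : ∃ a ∈ M, u₂ - v₂ = ((a : integralClosure ℤ ℂ) : ℂ)) :
    ∃ a ∈ M, u₁ * u₂ - v₁ * v₂ = ((a : integralClosure ℤ ℂ) : ℂ) := by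
  obtain ⟨a, ha, hae⟩ := h₁
  obtain ⟨b, hb, hbe⟩ := h₂
  refine ⟨a * ⟨u₂, hu₂⟩ + ⟨v₁, hv₁⟩ * b, M.add_mem (M.mul_mem_right _ ha) (M.mul_mem_left _ hb), ?_⟩
  show _ = (a : ℂ) * u₂ + v₁ * (b : ℂ)
  rw [← hae, ← hbe]
  ring

theorem IND_omega_one {G : Type} [Group G] (χ : G → ℂ) (h : χ 1 ≠ 0) : omega χ 1 = 1 := by
  unfold omega
  have h1 : conjugatesOf (1 : G) = {1} := by
    ext x
    show IsConj 1 x ↔ x = 1
    rw [isConj_one_right]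
  rw [h1, Nat.card_unique, Nat.cast_one, one_mul, div_self h]

theorem IND_omInd_one {G : Type} [Group G] (N : Subgroup G) (ψ : N → ℂ) (h : ψ 1 ≠ 0) :
    omInd N ψ 1 = 1 := by
  unfold omInd
  have h1 : {x : N | IsConj (1 : G) (x : G)} = {1} := by
    ext x
    show IsConj (1 : G) (x : G) ↔ x = 1
    rw [isConj_one_right]
    constructor
    · intro hx
      exact Subtype.ext hx
    · intro hx
      rw [hx]
      rfl
  rw [h1, finsum_mem_singleton, div_self h]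

/-- **IND.** -/
theorem IND (hO : OMP_stmt) (hI : INN_stmt) (hF : IRF_stmt) : IND_stmt := by
  intro M A B _ _ _ _ χ₁ hχ₁ χ₂ hχ₂
  have nz : ∀ (G : Type) [Group G] [Finite G], ∀ χ ∈ Irr G, χ 1 ≠ 0 := by
    intro G _ _ χ hχ
    obtain ⟨n, hn, he⟩ := ((hF G).2 χ hχ).1
    rw [he]
    exact_mod_cast hn.ne'
  have c1 := nz A χ₁ hχ₁
  have c2 := nz B χ₂ hχ₂
  constructor
  · intro N₁ N₂ ψ₁ hψ₁ ψ₂ hψ₂
    have d1 := nz N₁ ψ₁ hψ₁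
    have d2 := nz N₂ ψ₂ hψ₂
    constructor
    · intro h
      constructor
      · intro a
        obtain ⟨x, hx, hxe⟩ := h (a, 1)
        refine ⟨x, hx, ?_⟩
        rw [((hO A B a 1).1 χ₁ χ₂), ((hO A B a 1).2 N₁ N₂ ψ₁ ψ₂), IND_omega_one χ₂ c2,
          IND_omInd_one N₂ ψ₂ d2, mul_one, mul_one] at hxe
        exact hxe
      · intro b
        obtain ⟨x, hx, hxe⟩ := h (1, b)
        refine ⟨x, hx, ?_⟩
        rw [((hO A B 1 b).1 χ₁ χ₂), ((hO A B 1 b).2 N₁ N₂ ψ₁ ψ₂), IND_omega_one χ₁ c1,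
          IND_omInd_one N₁ ψ₁ d1, one_mul, one_mul] at hxe
        exact hxe
    · rintro ⟨h1, h2⟩ ⟨a, b⟩
      rw [((hO A B a b).1 χ₁ χ₂), ((hO A B a b).2 N₁ N₂ ψ₁ ψ₂)]
      exact IND_mul M ((hI B).2 N₂ ψ₂ hψ₂ b) ((hI A).1 χ₁ hχ₁ a) (h1 a) (h2 b)
  · intro ψ₁ hψ₁ ψ₂ hψ₂
    have d1 := nz A ψ₁ hψ₁
    have d2 := nz B ψ₂ hψ₂
    constructor
    · intro h
      constructor
      · intro a
        obtain ⟨x, hx, hxe⟩ := h (a, 1)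
        refine ⟨x, hx, ?_⟩
        rw [((hO A B a 1).1 χ₁ χ₂), ((hO A B a 1).1 ψ₁ ψ₂), IND_omega_one χ₂ c2,
          IND_omega_one ψ₂ d2, mul_one, mul_one] at hxe
        exact hxe
      · intro b
        obtain ⟨x, hx, hxe⟩ := h (1, b)
        refine ⟨x, hx, ?_⟩
        rw [((hO A B 1 b).1 χ₁ χ₂), ((hO A B 1 b).1 ψ₁ ψ₂), IND_omega_one χ₁ c1,
          IND_omega_one ψ₁ d1, one_mul, one_mul] at hxe
        exact hxe
    · rintro ⟨h1, h2⟩ ⟨a, b⟩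
      rw [((hO A B a b).1 χ₁ χ₂), ((hO A B a b).1 ψ₁ ψ₂)]
      exact IND_mul M ((hI B).1 χ₂ hχ₂ b) ((hI A).1 ψ₁ hψ₁ a) (h1 a) (h2 b)

end Pool.Agent.DD
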