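import Pool.Agent.helper12.DD.Spec

/-!
# PO2: elementary growth
-/

set_option autoImplicit false

open Pool.Agent.helper49.Blk

namespace Pool.Agent.DD

/-- **PO2.** -/
theorem PO2 : PO2_stmt := by
  intro D n hD
  have hD' : (0 : ℝ) < D := by exact_mod_cast hD
  have hl2 : 0 < Real.log 2 := Real.log_pos (by norm_num)
  refine ⟨Real.log 2 / (4 * D), by positivity, fun N => ?_⟩
  have ht := tendsto_pow_const_div_const_pow_of_one_lt 1 (one_lt_two : (1 : ℝ) < 2)
  have hev : ∀ᶠ k : ℕ in Filter.atTop, (k : ℝ) ^ 1 / 2 ^ k < 1 / (2 * (4 * n + 1)) :=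
    ht.eventually (gt_mem_nhds (by positivity))
  obtain ⟨k, hk1, hk2⟩ := (hev.and (Filter.eventually_ge_atTop (N + 1))).exists
  have hkpos : (1 : ℝ) ≤ k := by exact_mod_cast (by omega : 1 ≤ k)
  have h2k : (0 : ℝ) < 2 ^ k := by positivity
  refine ⟨2 * k, by omega, ?_, ?_⟩
  · calc N ≤ k := by omega
      _ ≤ 2 * (2 * k) * 1 := by omega
      _ ≤ 2 * (2 * k) * D := Nat.mul_le_mul_left _ hD
  · have h1 : Real.exp (Real.log 2 / (4 * D) * (2 * ((2 * k : ℕ) : ℝ) * D)) = 2 ^ k := by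
      have h2 : Real.log 2 / (4 * D) * (2 * ((2 * k : ℕ) : ℝ) * D) = k * Real.log 2 := by
        push_cast
        field_simp
        ring
      rw [h2, Real.exp_nat_mul, Real.exp_log (by norm_num)]
    rw [h1]
    have h3 : (k : ℝ) * (2 * (4 * n + 1)) < 2 ^ k := by
      rw [pow_one, div_lt_div_iff₀ h2k (by positivity), one_mul] at hk1
      exact hk1
    have h4 : (2 : ℝ) ^ (2 * k - 1) * 2 = 2 ^ k * 2 ^ k := by
      rw [← pow_succ, ← pow_add]
      congr 1
      omega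
    have h5 : (2 * ((2 * k : ℕ) : ℝ) * n + 1) * 2 ≤ 2 ^ k := by
      push_cast
      have h6 : (0 : ℝ) ≤ n := Nat.cast_nonneg n
      nlinarith
    have h7 : (2 : ℝ) ^ k * ((2 * ((2 * k : ℕ) : ℝ) * n + 1) * 2) ≤ 2 ^ k * 2 ^ k :=
      mul_le_mul_of_nonneg_left h5 h2k.le
    nlinarith

end Pool.Agent.DD
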