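import Pool.Agent.helper12.DD.Spec

/-!
# STB: stabilisers in products
-/

set_option autoImplicit false

open Pool.Agent.helper49.Blk

namespace Pool.Agent.DD

section STBaux

variable {A B EA EB : Type} [Group A] [Group B] [Group EA] [Group EB]

theorem STB_mem {Q : Subgroup (A × B)} (hQ : Q = (p1 Q).prod (p2 Q)) (x : A × B) :
    x ∈ Q ↔ x.1 ∈ p1 Q ∧ x.2 ∈ p2 Q := by
  constructor
  · intro hx
    rw [hQ] at hx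
    exact Subgroup.mem_prod.1 hx
  · intro hx
    rw [hQ]
    exact Subgroup.mem_prod.2 hx

theorem STB_fix (ιA : A →* EA) (ιB : B →* EB) {S : Set (Subgroup (A × B))}
    (hS : ∀ Q ∈ S, Q = (p1 Q).prod (p2 Q)) (N₁ : Subgroup A) (N₂ : Subgroup B) (ψ₁ : N₁ → ℂ)
    (ψ₂ : N₂ → ℂ) (h₁ : ψ₁ 1 ≠ 0) (h₂ : ψ₂ 1 ≠ 0) (e₁ : EA) (e₂ : EB) :
    Fixes (ιA.prodMap ιB) S (N₁.prod N₂) (ots N₁ N₂ ψ₁ ψ₂) (e₁, e₂) ↔
      Fixes ιA (p1 '' S) N₁ ψ₁ e₁ ∧ Fixes ιB (p2 '' S) N₂ ψ₂ e₂ := by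
  constructor
  · rintro ⟨hF, hG⟩
    refine ⟨⟨?_, ?_⟩, ⟨?_, ?_⟩⟩
    · rintro _ ⟨Q, hQ, rfl⟩ x y hxy
      have h := hF Q hQ (x, 1) (y, 1) (by
        refine Prod.ext ?_ ?_
        · simpa using hxy
        · simp)
      rw [STB_mem (hS Q hQ), STB_mem (hS Q hQ)] at h
      have h1 : (1 : B) ∈ p2 Q := (p2 Q).one_mem
      exact ⟨fun hx => (h.1 ⟨hx, h1⟩).1, fun hy => (h.2 ⟨hy, h1⟩).1⟩
    · intro x y hxy
      have h := hG ⟨((x : A), (1 : B)), Subgroup.mem_prod.2 ⟨x.2, N₂.one_mem⟩⟩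
        ⟨((y : A), (1 : B)), Subgroup.mem_prod.2 ⟨y.2, N₂.one_mem⟩⟩ (by
        refine Prod.ext ?_ ?_
        · simpa using hxy
        · simp)
      exact mul_right_cancel₀ h₂ h
    · rintro _ ⟨Q, hQ, rfl⟩ x y hxy
      have h := hF Q hQ (1, x) (1, y) (by
        refine Prod.ext ?_ ?_
        · simp
        · simpa using hxy)
      rw [STB_mem (hS Q hQ), STB_mem (hS Q hQ)] at h
      have h1 : (1 : A) ∈ p1 Q := (p1 Q).one_mem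
      exact ⟨fun hx => (h.1 ⟨h1, hx⟩).2, fun hy => (h.2 ⟨h1, hy⟩).2⟩
    · intro x y hxy
      have h := hG ⟨((1 : A), (x : B)), Subgroup.mem_prod.2 ⟨N₁.one_mem, x.2⟩⟩
        ⟨((1 : A), (y : B)), Subgroup.mem_prod.2 ⟨N₁.one_mem, y.2⟩⟩ (by
        refine Prod.ext ?_ ?_
        · simp
        · simpa using hxy)
      exact mul_left_cancel₀ h₁ h
  · rintro ⟨⟨hF₁, hG₁⟩, ⟨hF₂, hG₂⟩⟩
    refine ⟨?_, ?_⟩
    · intro Q hQ x y hxy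
      have hx1 : ιA y.1 = e₁ * ιA x.1 * e₁⁻¹ := congrArg Prod.fst hxy
      have hx2 : ιB y.2 = e₂ * ιB x.2 * e₂⁻¹ := congrArg Prod.snd hxy
      rw [STB_mem (hS Q hQ), STB_mem (hS Q hQ), hF₁ _ ⟨Q, hQ, rfl⟩ _ _ hx1,
        hF₂ _ ⟨Q, hQ, rfl⟩ _ _ hx2]
    · intro x y hxy
      have hx1 : ιA y.1.1 = e₁ * ιA x.1.1 * e₁⁻¹ := congrArg Prod.fst hxy
      have hx2 : ιB y.1.2 = e₂ * ιB x.1.2 * e₂⁻¹ := congrArg Prod.snd hxy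
      have h1 := hG₁ ⟨x.1.1, x.2.1⟩ ⟨y.1.1, y.2.1⟩ hx1
      have h2 := hG₂ ⟨x.1.2, x.2.2⟩ ⟨y.1.2, y.2.2⟩ hx2
      show ψ₁ _ * ψ₂ _ = ψ₁ _ * ψ₂ _
      rw [h1, h2]

theorem STB_one {G E : Type} [Group G] [Group E] (ι : G →* E) (hι : Function.Injective ι)
    (S : Set (Subgroup G)) (N : Subgroup G) (ψ : N → ℂ) :
    ∃ g : G, Fixes ι S N ψ (1 * ι g) := by
  refine ⟨1, ?_, ?_⟩
  · intro P _ x y hxy
    have h : y = x := hι (by simpa using hxy)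
    rw [h]
  · intro x y hxy
    have h : (y : G) = x := hι (by simpa using hxy)
    rw [Subtype.ext h]

end STBaux

/-- **STB.** -/
theorem STB : STB_stmt := by
  intro A B EA EB _ _ _ _ ιA ιB hA hB S hS N₁ N₂ ψ₁ ψ₂ h₁ h₂ U₁ U₂
  have key : ∀ (e₁ : EA) (e₂ : EB), (∃ g : A × B, Fixes (ιA.prodMap ιB) S (N₁.prod N₂)
      (ots N₁ N₂ ψ₁ ψ₂) ((e₁, e₂) * (ιA.prodMap ιB) g)) ↔
      (∃ g, Fixes ιA (p1 '' S) N₁ ψ₁ (e₁ * ιA g)) ∧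
        ∃ g, Fixes ιB (p2 '' S) N₂ ψ₂ (e₂ * ιB g) := by
    intro e₁ e₂
    constructor
    · rintro ⟨g, hg⟩
      have h := (STB_fix ιA ιB hS N₁ N₂ ψ₁ ψ₂ h₁ h₂ (e₁ * ιA g.1) (e₂ * ιB g.2)).1 hg
      exact ⟨⟨g.1, h.1⟩, ⟨g.2, h.2⟩⟩
    · rintro ⟨⟨g, hg⟩, ⟨k, hk⟩⟩
      exact ⟨(g, k), (STB_fix ιA ιB hS N₁ N₂ ψ₁ ψ₂ h₁ h₂ (e₁ * ιA g) (e₂ * ιB k)).2 ⟨hg, hk⟩⟩
  have o1 := STB_one ιA hA (p1 '' S) N₁ ψ₁
  have o2 := STB_one ιB hB (p2 '' S) N₂ ψ₂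
  constructor
  · intro h
    constructor
    · intro e
      have h3 := (h (e, 1)).trans (key e 1)
      constructor
      · intro he
        exact (h3.1 (Subgroup.mem_prod.2 ⟨he, U₂.one_mem⟩)).1
      · intro he
        exact (Subgroup.mem_prod.1 (h3.2 ⟨he, o2⟩)).1
    · intro e
      have h3 := (h (1, e)).trans (key 1 e)
      constructor
      · intro he
        exact (h3.1 (Subgroup.mem_prod.2 ⟨U₁.one_mem, he⟩)).2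
      · intro he
        exact (Subgroup.mem_prod.1 (h3.2 ⟨o1, he⟩)).2
  · rintro ⟨hU1, hU2⟩ ⟨e₁, e₂⟩
    rw [key e₁ e₂, ← hU1 e₁, ← hU2 e₂]
    exact Subgroup.mem_prod

end Pool.Agent.DD
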